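import Pool.Agent.Helper94.PU.Sheet
open MeasureTheory Metric Set Filter Topology Real
open scoped ENNReal NNReal

/-! # Row CUT: every open edge is a bridge, the edges give independent vectors -/

namespace H11ST
namespace PU
namespace Cut49

theorem open_of_seg {a b v : E 2} (h : v ∈ segment ℝ a b) (ha : v ≠ a) (hb : v ≠ b) :
    v ∈ openSegment ℝ a b :=
  mem_openSegment_of_ne_left_right (Ne.symm ha) (Ne.symm hb) h

theorem closed_cut {S : Set (E 2)} (hS : IsClosed S) {a b : E 2} (hab : a ≠ b)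
    (hloc : ∀ v ∈ openSegment ℝ a b, ∃ δ > 0, S ∩ ball v δ ⊆ segment ℝ a b) :
    IsClosed (S \ openSegment ℝ a b) := by
  rw [← isOpen_compl_iff, Metric.isOpen_iff]
  intro z hz
  by_cases hzS : z ∈ S
  · have hzo : z ∈ openSegment ℝ a b := by
      by_contra h
      exact hz ⟨hzS, h⟩
    obtain ⟨δ, hδ, hsub⟩ := hloc z hzo
    have hza : z ≠ a := by
      rintro rfl
      exact hab (left_mem_openSegment_iff.1 hzo)
    have hzb : z ≠ b := by
      rintro rfl
      exact hab (right_mem_openSegment_iff.1 hzo)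
    refine ⟨min δ (min (dist z a) (dist z b)),
      lt_min hδ (lt_min (dist_pos.2 hza) (dist_pos.2 hzb)), ?_⟩
    intro w hw hw'
    rw [mem_ball] at hw
    have h1 : dist w z < δ := lt_of_lt_of_le hw (min_le_left _ _)
    have h2 : dist w z < dist z a :=
      lt_of_lt_of_le hw ((min_le_right _ _).trans (min_le_left _ _))
    have h3 : dist w z < dist z b :=
      lt_of_lt_of_le hw ((min_le_right _ _).trans (min_le_right _ _))
    refine hw'.2 (open_of_seg (hsub ⟨hw'.1, h1⟩) ?_ ?_)
    · rintro rfl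
      rw [dist_comm] at h2
      exact lt_irrefl _ h2
    · rintro rfl
      rw [dist_comm] at h3
      exact lt_irrefl _ h3
  · obtain ⟨δ, hδ, hb⟩ := Metric.isOpen_iff.1 hS.isOpen_compl z hzS
    exact ⟨δ, hδ, fun w hw hw' => hb hw hw'.1⟩

theorem open_pos {a b : E 2} (hab : a ≠ b) : 0 < μH[1] (openSegment ℝ a b) := by
  have hsub : segment ℝ (AffineMap.lineMap a b (1 / 4 : ℝ)) (AffineMap.lineMap a b (3 / 4 : ℝ)) ⊆
      openSegment ℝ a b := by
    refine (convex_openSegment a b).segment_subset ?_ ?_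
    · rw [openSegment_eq_image_lineMap]
      exact ⟨1 / 4, ⟨by norm_num, by norm_num⟩, rfl⟩
    · rw [openSegment_eq_image_lineMap]
      exact ⟨3 / 4, ⟨by norm_num, by norm_num⟩, rfl⟩
  refine lt_of_lt_of_le ?_ (measure_mono hsub)
  rw [hausdorffMeasure_segment, edist_pos]
  intro h
  have h1 := AffineMap.lineMap_injective ℝ hab h
  norm_num at h1

theorem bridge {A S : Set (E 2)} (L : LocAdm A S 0 1) (hA : IsClosed A) {a b : E 2} (hab : a ≠ b)
    (ha : a ∈ ball (0 : E 2) 1) (hb : b ∈ ball (0 : E 2) 1) (hseg : segment ℝ a b ⊆ S)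
    (hloc : ∀ v ∈ openSegment ℝ a b, ∃ δ > 0, S ∩ ball v δ ⊆ segment ℝ a b) :
    ∃ F G : Set (E 2), IsClosed F ∧ IsClosed G ∧ Disjoint F G ∧
      (S ∪ A) \ openSegment ℝ a b = F ∪ G ∧ a ∈ F ∧ b ∈ G := by
  have hTc := closed_cut L.hS hab hloc
  have hob : openSegment ℝ a b ⊆ ball (0 : E 2) 1 :=
    (openSegment_subset_segment ℝ a b).trans ((convex_ball (0 : E 2) 1).segment_subset ha hb)
  have hoS : openSegment ℝ a b ⊆ S := (openSegment_subset_segment ℝ a b).trans hseg
  have haA : Disjoint A (openSegment ℝ a b) := by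
    rw [disjoint_left]
    intro z hz hz'
    exact L.far z hz (hob hz')
  have hTA : (S ∪ A) \ openSegment ℝ a b = (S \ openSegment ℝ a b) ∪ A := by
    rw [union_sdiff_distrib, haA.sdiff_eq_left]
  have hao : a ∉ openSegment ℝ a b := fun h => hab (left_mem_openSegment_iff.1 h)
  have hbo : b ∉ openSegment ℝ a b := fun h => hab (right_mem_openSegment_iff.1 h)
  have haT : a ∈ (S \ openSegment ℝ a b) ∪ A := Or.inl ⟨hseg (left_mem_segment ℝ a b), hao⟩
  have hbT : b ∈ (S \ openSegment ℝ a b) ∪ A := Or.inl ⟨hseg (right_mem_segment ℝ a b), hbo⟩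
  have hnc : ¬ IsPreconnected ((S \ openSegment ℝ a b) ∪ A) := by
    intro hpre
    refine L.strict hTc ⟨⟨a, haT⟩, hpre⟩ ?_ sdiff_subset hob (fun z hz => hz.2) ?_
    · ext z
      constructor
      · rintro ⟨h1, h2⟩
        exact ⟨h1.1, h2⟩
      · rintro ⟨h1, h2⟩
        exact ⟨⟨h1, fun h => h2 (hob h)⟩, h2⟩
    · rw [inter_eq_self_of_subset_right hoS]
      exact open_pos hab
  have hclosed : IsClosed ((S \ openSegment ℝ a b) ∪ A) := hTc.union hA
  rw [isPreconnected_iff_subset_of_fully_disjoint_closed hclosed] at hnc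
  push Not at hnc
  obtain ⟨u, v, hu, hv, huv, hdis, hnu, hnv⟩ := hnc
  rw [hTA]
  -- the two parts
  have key : ∀ u v : Set (E 2), IsClosed u → IsClosed v →
      (S \ openSegment ℝ a b) ∪ A ⊆ u ∪ v → Disjoint u v →
      ¬ (S \ openSegment ℝ a b) ∪ A ⊆ u → a ∈ u → b ∉ u := by
    intro u v hu hv huv hdis hnu hau hbu
    -- otherwise S ∪ A is not connected
    have h1 : IsClosed ((((S \ openSegment ℝ a b) ∪ A) ∩ u) ∪ segment ℝ a b) :=
      (hclosed.inter hu).union (seg_closed a b)
    have h2 : IsClosed (((S \ openSegment ℝ a b) ∪ A) ∩ v) := hclosed.inter hv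
    have hd : Disjoint ((((S \ openSegment ℝ a b) ∪ A) ∩ u) ∪ segment ℝ a b)
        (((S \ openSegment ℝ a b) ∪ A) ∩ v) := by
      rw [disjoint_left]
      rintro z (h | h) h'
      · exact disjoint_left.1 hdis h.2 h'.2
      · by_cases hza : z = a
        · subst hza
          exact disjoint_left.1 hdis hau h'.2
        · by_cases hzb : z = b
          · subst hzb
            exact disjoint_left.1 hdis hbu h'.2
          · have := open_of_seg h hza hzb
            rcases h'.1 with h3 | h3
            · exact h3.2 this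
            · exact disjoint_left.1 haA h3 this
    have hX : IsClosed (S ∪ A) := L.hS.union hA
    have hcov : S ∪ A ⊆ ((((S \ openSegment ℝ a b) ∪ A) ∩ u) ∪ segment ℝ a b) ∪
        (((S \ openSegment ℝ a b) ∪ A) ∩ v) := by
      intro z hz
      by_cases hzo : z ∈ openSegment ℝ a b
      · exact Or.inl (Or.inr (openSegment_subset_segment ℝ a b hzo))
      · have hzT : z ∈ (S \ openSegment ℝ a b) ∪ A := by
          rcases hz with h | h
          · exact Or.inl ⟨h, hzo⟩
          · exact Or.inr h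
        rcases huv hzT with h | h
        · exact Or.inl (Or.inl ⟨hzT, h⟩)
        · exact Or.inr ⟨hzT, h⟩
    obtain ⟨w, hw, hwu⟩ := not_subset.1 hnu
    have hwv : w ∈ v := (huv hw).resolve_left hwu
    rcases (isPreconnected_iff_subset_of_fully_disjoint_closed hX).1 L.conn.isPreconnected _ _ h1 h2
      hcov hd with h | h
    · have hwX : w ∈ S ∪ A := by
        rcases hw with h3 | h3
        · exact Or.inl h3.1
        · exact Or.inr h3
      exact disjoint_left.1 hd (h hwX) ⟨hw, hwv⟩
    · have haX : a ∈ S ∪ A := Or.inl (hseg (left_mem_segment ℝ a b))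
      exact disjoint_left.1 hdis hau (h haX).2
  by_cases hau : a ∈ u
  · have hbu := key u v hu hv huv hdis hnu hau
    refine ⟨((S \ openSegment ℝ a b) ∪ A) ∩ u, ((S \ openSegment ℝ a b) ∪ A) ∩ v,
      hclosed.inter hu, hclosed.inter hv, ?_, ?_, ⟨haT, hau⟩, ⟨hbT, (huv hbT).resolve_left hbu⟩⟩
    · exact hdis.mono inter_subset_right inter_subset_right
    · rw [← inter_union_distrib_left, inter_eq_self_of_subset_left huv]
  · have hav : a ∈ v := (huv haT).resolve_left hau
    have hvu : (S \ openSegment ℝ a b) ∪ A ⊆ v ∪ u := by rw [union_comm v u]; exact huv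
    have hbv := key v u hv hu hvu hdis.symm hnv hav
    refine ⟨((S \ openSegment ℝ a b) ∪ A) ∩ v, ((S \ openSegment ℝ a b) ∪ A) ∩ u,
      hclosed.inter hv, hclosed.inter hu, ?_, ?_, ⟨haT, hav⟩, ⟨hbT, (hvu hbT).resolve_left hbv⟩⟩
    · exact hdis.symm.mono inter_subset_right inter_subset_right
    · rw [← inter_union_distrib_left, inter_eq_self_of_subset_left hvu]

theorem side {F G K : Set (E 2)} (hF : IsClosed F) (hG : IsClosed G) (hd : Disjoint F G)
    (hK : IsPreconnected K) (hsub : K ⊆ F ∪ G) {z : E 2} (hz : z ∈ K) (hzF : z ∈ F) : K ⊆ F := by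
  rcases isPreconnected_iff_subset_of_disjoint_closed.1 hK F G hF hG hsub
    (by rw [hd.inter_eq, inter_empty]) with h | h
  · exact h
  · exact absurd (h hz) (disjoint_left.1 hd hzF)

end Cut49

open Cut49 in
theorem cut : ST_CUT := by
  classical
  intro A S L hA ι _ a b C D P hab ha hb hseg hloc hdis hC hD hCo hDo
  have hbr : ∀ i, ∃ F G : Set (E 2), IsClosed F ∧ IsClosed G ∧ Disjoint F G ∧
      (S ∪ A) \ openSegment ℝ (a i) (b i) = F ∪ G ∧ a i ∈ F ∧ b i ∈ G := fun i =>
    bridge L hA (hab i) (ha i) (hb i) (hseg i) (hloc i)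
  choose F G hF hG hFG hcov haF hbG using hbr
  have hCp : ∀ i, ∃ p : P, (p : E 2) ∈ C i := fun i => by
    obtain ⟨p, hp, hpC⟩ := (hC i).2.2.2
    exact ⟨⟨p, hp⟩, hpC⟩
  have hDp : ∀ i, ∃ p : P, (p : E 2) ∈ D i := fun i => by
    obtain ⟨p, hp, hpC⟩ := (hD i).2.2.2
    exact ⟨⟨p, hp⟩, hpC⟩
  choose p hp using hCp
  choose q hq using hDp
  let w : ι → (P → ℝ) := fun j => Pi.single (p j) 1 - Pi.single (q j) 1
  let Φ : ι → (P → ℝ) →ₗ[ℝ] ℝ := fun i =>
    { toFun := fun f => ∑ x : P, if (x : E 2) ∈ F i then f x else 0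
      map_add' := fun f g => by
        rw [← Finset.sum_add_distrib]
        refine Finset.sum_congr rfl fun x _ => ?_
        split_ifs <;> simp
      map_smul' := fun c f => by
        simp only [RingHom.id_apply, smul_eq_mul, Finset.mul_sum]
        refine Finset.sum_congr rfl fun x _ => ?_
        split_ifs <;> simp }
  have hs : ∀ i (x : P), Φ i (Pi.single x 1) = if (x : E 2) ∈ F i then 1 else 0 := by
    intro i x
    change ∑ y : P, (if (y : E 2) ∈ F i then (Pi.single x (1 : ℝ) : P → ℝ) y else 0) = _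
    rw [Finset.sum_eq_single x]
    · simp
    · intro y _ hy
      simp [Pi.single_eq_of_ne hy]
    · intro h
      exact absurd (Finset.mem_univ x) h
  have hsubK : ∀ i (K : Set (E 2)), K ⊆ S → Disjoint K (openSegment ℝ (a i) (b i)) →
      K ⊆ F i ∪ G i := by
    intro i K h1 h2 z hz
    rw [← hcov i]
    exact ⟨Or.inl (h1 hz), disjoint_left.1 h2 hz⟩
  have hii : ∀ i, Φ i (w i) = 1 := by
    intro i
    have h1 : C i ⊆ F i := side (hF i) (hG i) (hFG i) (hC i).1 (hsubK i _ (hC i).2.1 (hCo i i))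
      (hC i).2.2.1 (haF i)
    have h2 : D i ⊆ G i := side (hG i) (hF i) (hFG i).symm (hD i).1
      (by rw [union_comm]; exact hsubK i _ (hD i).2.1 (hDo i i)) (hD i).2.2.1 (hbG i)
    have h3 : (q i : E 2) ∉ F i := fun h => disjoint_left.1 (hFG i) h (h2 (hq i))
    simp only [w, map_sub, hs, if_pos (h1 (hp i)), if_neg h3, sub_zero]
  have hij : ∀ i j, j ≠ i → Φ i (w j) = 0 := by
    intro i j hji
    have hconn : IsPreconnected (C j ∪ segment ℝ (a j) (b j) ∪ D j) := by
      refine IsPreconnected.union (b j) (Or.inr (right_mem_segment ℝ _ _)) (hD j).2.2.1 ?_ (hD j).1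
      exact IsPreconnected.union (a j) (hC j).2.2.1 (left_mem_segment ℝ _ _) (hC j).1
        (convex_segment _ _).isPreconnected
    have hsub : C j ∪ segment ℝ (a j) (b j) ∪ D j ⊆ F i ∪ G i := by
      refine hsubK i _ (union_subset (union_subset (hC j).2.1 (hseg j)) (hD j).2.1) ?_
      rw [disjoint_left]
      rintro z ((h | h) | h) h'
      · exact disjoint_left.1 (hCo j i) h h'
      · by_cases hza : z = a j
        · subst hza
          exact disjoint_left.1 (hCo j i) (hC j).2.2.1 h'
        · by_cases hzb : z = b j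
          · subst hzb
            exact disjoint_left.1 (hDo j i) (hD j).2.2.1 h'
          · exact disjoint_left.1 (hdis j i hji) (open_of_seg h hza hzb) h'
      · exact disjoint_left.1 (hDo j i) h h'
    have hpm : (p j : E 2) ∈ C j ∪ segment ℝ (a j) (b j) ∪ D j := Or.inl (Or.inl (hp j))
    have hqm : (q j : E 2) ∈ C j ∪ segment ℝ (a j) (b j) ∪ D j := Or.inr (hq j)
    by_cases hpF : (p j : E 2) ∈ F i
    · have h1 := side (hF i) (hG i) (hFG i) hconn hsub hpm hpF
      simp only [w, map_sub, hs, if_pos hpF, if_pos (h1 hqm), sub_self]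
    · have hqF : (q j : E 2) ∉ F i := by
        intro h
        exact hpF (side (hF i) (hG i) (hFG i) hconn hsub hqm h hpm)
      simp only [w, map_sub, hs, if_neg hpF, if_neg hqF, sub_self]
  have hli : LinearIndependent ℝ w := by
    rw [Fintype.linearIndependent_iff]
    intro g hg i
    have h1 := congrArg (Φ i) hg
    rw [map_sum, map_zero, Finset.sum_eq_single i] at h1
    · rw [map_smul, hii, smul_eq_mul, mul_one] at h1
      exact h1
    · intro j _ hj
      rw [map_smul, hij i j hj, smul_zero]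
    · intro h
      exact absurd (Finset.mem_univ i) h
  have h := hli.fintype_card_le_finrank
  rw [Module.finrank_fintype_fun_eq_card, Fintype.card_coe] at h
  exact h

end PU
end H11ST
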